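import Pool.Agent.W2helper22.MG.Stm

/-!
# Project MG (helper22), piece CHEB: Chebyshev for the blocks of a uniform string
-/

set_option autoImplicit false

namespace Pool.Agent.W2helper2.MG

open Finset Pool.Agent.W2helper86.LG Pool.Agent.W2helper22.MG

/-- restriction along an injective map preserves the uniform distribution -/
lemma sum_restr {I J : Type} [Fintype I] [Fintype J] [DecidableEq I] [DecidableEq J] (ι : J → I)
    (hι : Function.Injective ι) (h : (J → Bool) → ℝ) :
    (Fintype.card (J → Bool) : ℝ) * ∑ x : I → Bool, h (fun j => x (ι j)) =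
      (Fintype.card (I → Bool) : ℝ) * ∑ y, h y := by
  classical
  let K := {i // ¬ i ∈ Set.range ι}
  let e : J ⊕ K ≃ I := (Equiv.sumCongr (Equiv.ofInjective ι hι) (Equiv.refl K)).trans
    (Equiv.sumCompl (fun i => i ∈ Set.range ι))
  let E : (I → Bool) ≃ (J → Bool) × (K → Bool) :=
    (Equiv.arrowCongr e.symm (Equiv.refl Bool)).trans (Equiv.sumArrowEquivProdArrow J K Bool)
  have hE : ∀ x : I → Bool, (E x).1 = fun j => x (ι j) := fun x => rfl
  have h1 : ∑ x : I → Bool, h (fun j => x (ι j)) = ∑ x : I → Bool, h (E x).1 :=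
    Finset.sum_congr rfl fun x _ => by rw [hE]
  have h2 : Fintype.card (I → Bool) = Fintype.card (J → Bool) * Fintype.card (K → Bool) := by
    rw [← Fintype.card_prod]
    exact Fintype.card_congr E
  rw [h1, Equiv.sum_comp E (fun p => h p.1), Fintype.sum_prod_type]
  simp only [sum_const, card_univ, nsmul_eq_mul]
  rw [← Finset.mul_sum, h2]
  push_cast
  ring

/-- the centred indicator -/
noncomputable def gg {b : ℕ} (f : (Fin b → Bool) → Bool) (y : Fin b → Bool) : ℝ :=
  (if f y = true then (1 : ℝ) else 0) - prob f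

lemma card_pos' (J : Type) [Fintype J] [DecidableEq J] : (0 : ℝ) < Fintype.card (J → Bool) := by
  exact_mod_cast Fintype.card_pos

lemma sum_ind {b : ℕ} (f : (Fin b → Bool) → Bool) :
    ∑ y, (if f y = true then (1 : ℝ) else 0) = prob f * Fintype.card (Fin b → Bool) := by
  unfold prob
  rw [div_mul_cancel₀ _ (card_pos' (Fin b)).ne', Finset.sum_boole]

lemma sum_gg {b : ℕ} (f : (Fin b → Bool) → Bool) : ∑ y, gg f y = 0 := by
  unfold gg
  rw [Finset.sum_sub_distrib, sum_ind, sum_const, card_univ, nsmul_eq_mul]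
  ring

lemma sum_gg_sq {b : ℕ} (f : (Fin b → Bool) → Bool) :
    ∑ y, gg f y ^ 2 ≤ (Fintype.card (Fin b → Bool) : ℝ) / 4 := by
  have h1 : ∀ y, gg f y ^ 2 = (1 - 2 * prob f) * (if f y = true then (1 : ℝ) else 0) +
      prob f ^ 2 := by
    intro y
    unfold gg
    by_cases h : f y = true
    · rw [if_pos h]
      ring
    · rw [if_neg h]
      ring
  rw [Finset.sum_congr rfl fun y _ => h1 y, Finset.sum_add_distrib, ← Finset.mul_sum, sum_ind,
    sum_const, card_univ, nsmul_eq_mul]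
  have h2 := card_pos' (Fin b)
  nlinarith [mul_nonneg h2.le (sq_nonneg (prob f - 1 / 2))]

section

variable {b B M : ℕ} (π : Fin B → Fin b → Fin M) (f : (Fin b → Bool) → Bool)

lemma diag (hπ : ∀ i j i' j', π i j = π i' j' → i = i' ∧ j = j') (i : Fin B) :
    ∑ x : Fin M → Bool, gg f (fun j => x (π i j)) ^ 2 ≤
      (Fintype.card (Fin M → Bool) : ℝ) / 4 := by
  have h1 := sum_restr (π i) (fun j j' h => (hπ _ _ _ _ h).2) (fun y => gg f y ^ 2)
  have h2 := sum_gg_sq f
  have h3 := card_pos' (Fin b)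
  have h4 := card_pos' (Fin M)
  have h5 : (Fintype.card (Fin b → Bool) : ℝ) * ∑ x : Fin M → Bool, gg f (fun j => x (π i j)) ^ 2 ≤
      (Fintype.card (Fin b → Bool) : ℝ) * ((Fintype.card (Fin M → Bool) : ℝ) / 4) := by
    rw [h1]
    calc _ ≤ (Fintype.card (Fin M → Bool) : ℝ) * ((Fintype.card (Fin b → Bool) : ℝ) / 4) :=
          mul_le_mul_of_nonneg_left h2 h4.le
      _ = _ := by ring
  exact le_of_mul_le_mul_left h5 h3

lemma off (hπ : ∀ i j i' j', π i j = π i' j' → i = i' ∧ j = j') {i i' : Fin B} (hi : i ≠ i') :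
    ∑ x : Fin M → Bool, gg f (fun j => x (π i j)) * gg f (fun j => x (π i' j)) = 0 := by
  have hinj : Function.Injective (Sum.elim (π i) (π i') : Fin b ⊕ Fin b → Fin M) := by
    rintro (j | j) (j' | j') h
    · rw [(hπ _ _ _ _ h).2]
    · exact absurd (hπ _ _ _ _ h).1 hi
    · exact absurd (hπ _ _ _ _ h).1 hi.symm
    · rw [(hπ _ _ _ _ h).2]
  have h1 := sum_restr (Sum.elim (π i) (π i')) hinj
    (fun w => gg f (fun j => w (Sum.inl j)) * gg f (fun j => w (Sum.inr j)))
  have h2 : ∑ w : Fin b ⊕ Fin b → Bool,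
      gg f (fun j => w (Sum.inl j)) * gg f (fun j => w (Sum.inr j)) = 0 := by
    have h3 := Equiv.sum_comp (Equiv.sumArrowEquivProdArrow (Fin b) (Fin b) Bool)
      (fun p => gg f p.1 * gg f p.2)
    have h4 : ∑ p : (Fin b → Bool) × (Fin b → Bool), gg f p.1 * gg f p.2 = 0 := by
      rw [Fintype.sum_prod_type, ← Finset.sum_mul_sum, sum_gg, zero_mul]
    rw [h4] at h3
    exact h3
  rw [h2, mul_zero] at h1
  have h5 := card_pos' (Fin b ⊕ Fin b)
  rcases mul_eq_zero.1 h1 with h | h
  · exact absurd h h5.ne'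
  · exact h

lemma cnt_eq (x : Fin M → Bool) :
    (cnt π f x : ℝ) - prob f * B = ∑ i : Fin B, gg f (fun j => x (π i j)) := by
  unfold Pool.Agent.W2helper22.MG.cnt gg
  rw [Finset.sum_sub_distrib, Finset.sum_boole, sum_const, card_univ, Fintype.card_fin,
    nsmul_eq_mul, mul_comm (B : ℝ)]

lemma second (hπ : ∀ i j i' j', π i j = π i' j' → i = i' ∧ j = j') :
    ∑ x : Fin M → Bool, ((cnt π f x : ℝ) - prob f * B) ^ 2 ≤
      B * ((Fintype.card (Fin M → Bool) : ℝ) / 4) := by
  have h1 : ∀ x : Fin M → Bool, ((cnt π f x : ℝ) - prob f * B) ^ 2 =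
      ∑ i : Fin B, ∑ i' : Fin B, gg f (fun j => x (π i j)) * gg f (fun j => x (π i' j)) := by
    intro x
    rw [cnt_eq, sq, Finset.sum_mul_sum]
  rw [Finset.sum_congr rfl fun x _ => h1 x, Finset.sum_comm]
  have h2 : ∀ i : Fin B, ∑ x : Fin M → Bool, ∑ i' : Fin B,
      gg f (fun j => x (π i j)) * gg f (fun j => x (π i' j)) ≤
        (Fintype.card (Fin M → Bool) : ℝ) / 4 := by
    intro i
    rw [Finset.sum_comm, Finset.sum_eq_single i]
    · refine le_trans (le_of_eq (Finset.sum_congr rfl fun x _ => ?_)) (diag π f hπ i)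
      rw [sq]
    · intro i' _ hi
      exact off π f hπ hi.symm
    · intro h
      exact absurd (mem_univ i) h
  refine (Finset.sum_le_sum fun i _ => h2 i).trans (le_of_eq ?_)
  rw [sum_const, card_univ, Fintype.card_fin, nsmul_eq_mul]

end

/-- **CHEB** -/
theorem cheb : P_CHEB := by
  intro b B M π f δ hπ hδ hB
  have hBR : (0 : ℝ) < B := by exact_mod_cast hB
  have hM := card_pos' (Fin M)
  have h1 := second π f hπ
  have hdB : 0 < δ * B := mul_pos hδ hBR
  set T : Finset (Fin M → Bool) := univ.filter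
    (fun x => decide (δ * B ≤ |(cnt π f x : ℝ) - prob f * B|) = true) with hT
  have h2 : (T.card : ℝ) * (δ * B) ^ 2 ≤ B * ((Fintype.card (Fin M → Bool) : ℝ) / 4) := by
    refine le_trans ?_ h1
    have h3 : (T.card : ℝ) * (δ * B) ^ 2 ≤ ∑ x ∈ T, ((cnt π f x : ℝ) - prob f * B) ^ 2 := by
      rw [← nsmul_eq_mul]
      refine Finset.card_nsmul_le_sum T _ _ fun x hx => ?_
      rw [hT, mem_filter, decide_eq_true_eq] at hx
      rw [← sq_abs ((cnt π f x : ℝ) - prob f * B)]
      exact pow_le_pow_left₀ hdB.le hx.2 2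
    exact h3.trans (Finset.sum_le_sum_of_subset_of_nonneg (subset_univ _)
      fun x _ _ => sq_nonneg _)
  have h4 : prob (fun x : Fin M → Bool =>
      decide (δ * B ≤ |(cnt π f x : ℝ) - prob f * B|)) =
      (T.card : ℝ) / Fintype.card (Fin M → Bool) := rfl
  rw [h4, div_le_div_iff₀ hM (by positivity)]
  have h5 : (T.card : ℝ) * (4 * δ ^ 2 * B) * B ≤ 1 * (Fintype.card (Fin M → Bool) : ℝ) * B := by
    nlinarith
  exact le_of_mul_le_mul_right h5 hBR

end Pool.Agent.W2helper2.MG
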